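import Pool.Agent.T9h20.SC.Wrap
import Pool.Agent.T9h20.SC.Uniform
import Pool.Agent.T9h36.SC.P9b

/-!
# The Set Cover conjecture for monotone circuits

Adding sets to the family `ℱ` of an instance `([n], ℱ, k)` of Set Cover keeps a yes-instance a
yes-instance, so Set Cover is a monotone function of the family, and dynamic programming over the
subsets of the universe is a monotone circuit with `2 ^ n * N ^ O(1)` gates. The theorem says that
monotone circuits cannot do better: for no `ε > 0` and no `c` does Set Cover have monotone circuits
with `(2 - ε) ^ n * N ^ c` gates, where `n` is the size of the universe and `N` the size of the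
instances. This is the statement of the Set Cover conjecture, with monotone circuits (which may be
different for every `n`) in place of algorithms. It remains true

* for gates which compute arbitrary nondecreasing functions of up to `2 ^ (n / K)` real numbers
  (threshold gates, minimum and addition, ...);
* for circuits which obtain all nondecreasing functions of all subinstances on at most `n / 2`
  elements of the universe for free;
* for telling the partitions of the universe into `k` sets with `n / k` elements from the families
  of sets with `n / k` elements which contain no cover by `k` sets;
* on average over the yes-instances: circuits which are correct for a fraction `α` of the partitions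
  have at least `α * 2 ^ ((1 - ε) * n) * N ^ c` gates.

The sets of the instances have `s = n / k` elements, where `k` is large; there are
`n.choose s ≤ 2 ^ (ε * n)` of them.

Proof. The no-instances are the families `F_w` of all `s`-sets `A` with `w (A) = 0`, where `w` is a
random function from the universe to the field with `p` elements, `w ([n]) ≠ 0`, and `p` is a large
constant. The approximation method is used with partial partitions `τ` of the universe (a
yes-instance accepts `τ` if it refines `τ`, and `w` accepts `τ` if all parts of `τ` have `w`-sum
zero) which cover at most `n / 2` elements; common refinements take the place of unions of terms. Two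
such partial partitions whose common refinement covers more than `n / 2` elements are both refined by
at most a fraction `2 ^ (-(1 - o(1)) n)` of the partitions. The new point is a sunflower lemma for
partial partitions: among `2 ^ (η n)` partial partitions which refine `σ` (and of which not too many
refine any proper refinement of `σ`), for all but `2 ^ (-C n)` of the `w` accepting `σ` there is one
which is accepted by `w`. It is proved by induction on the number of parts, with a robust version
of the lemma of Sauer, Shelah and Natarajan (many members of the family for every pattern on a set of
`δ n` elements) and the theorem of Cauchy and Davenport.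

The library `Pool.Agent.T9h20.SC` was formalised together with helper8, helper18, helper36 and
helper95.
-/

set_option autoImplicit false

namespace Pool.Agent.Results.MP_8fffab_lc.MonotoneCircuits

open Pool.Agent.T9h20 Pool.Agent.T9h20.SC

/-- For all `ε > 0` and `c` there is `k₀` such that for every `k ≥ k₀` there are `K` and `s₀` with the
following property. Let `s ≥ s₀`, `n = k * s`, `f ≥ 1` and `f ^ K ≤ 2 ^ n`. Let `C` be a monotone
real circuit with gates of fan-in at most `f` whose inputs are nondecreasing functions of the
subfamilies of the sets contained in scopes with at most `n / 2` elements. Let `𝒬` be a set of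
partitions `ℱ` of the universe `Fin n` into `k` sets with `s` elements such that `C` has a larger
value on `ℱ` than on all families `𝒢` of sets with `s` elements which contain no cover of the universe
by at most `k` sets. Let `α` be the proportion of the members of `𝒬` among all partitions of the
universe into `k` sets with `s` elements. Then `C` has at least
`α * 2 ^ ((1 - ε) * n) * (n * n.choose s) ^ c` gates. -/
theorem result (ε : ℝ) (hε : 0 < ε) (c : ℕ) :
    ∃ k₀ : ℕ, ∀ k ≥ k₀, ∃ K s₀ : ℕ, ∀ s ≥ s₀, ∀ f ≥ 1, f ^ K ≤ 2 ^ (k * s) →
    ∀ C : FCircuit (SubFam (k * s)), C.FanInLe f → ∀ 𝒬 : Finset (Finset (Finset (Fin (k * s)))),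
    (∀ ℱ ∈ 𝒬, IsPartition k s ℱ ∧ ∀ 𝒢, (∀ A ∈ 𝒢, A.card = s) → ¬ HasCover k 𝒢 →
      value C 𝒢 < value C ℱ) →
    (𝒬.card : ℝ) / Nat.card {ℱ : Finset (Finset (Fin (k * s))) // IsPartition k s ℱ} *
      ((2 : ℝ) ^ ((1 - ε) * ((k * s : ℕ) : ℝ)) * (((k * s) * (k * s).choose s : ℕ) : ℝ) ^ c)
      ≤ C.size :=
  main Pool.Agent.T9h18.SC.stCross stApprox Pool.Agent.T9h36.SC.stParamA
    Pool.Agent.T9h36.SC.stParamB stUniform ε hε c

end Pool.Agent.Results.MP_8fffab_lc.MonotoneCircuits
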