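import Pool.Agent.T9h36.SK.Random
import Pool.Agent.T9h36.SK.Param
import Pool.Agent.T9h8.SK.Hard
import Pool.Agent.T9h81.SK.Conv
import Pool.Agent.T9h81.SK.No
import Pool.Agent.T9h93.SK.Path
import Pool.Agent.T9h18.SK.Leaf
import Pool.Agent.T9h18.SK.Mono
import Pool.Agent.T9h18.SK.Yes
import Pool.Agent.T9h80.SK.Ent
import Pool.Agent.T9h39.PZ.Bridge
import Pool.Agent.T9h34.PZ.Rank
import Pool.Agent.T9h12.PZ.Struct
import Pool.Agent.T9h36.PZ.Conf
import Pool.Agent.T9h95.PZ.Fib
import Pool.Agent.T9h95.PZ.ExL
import Pool.Agent.T9h36.PZ.Avg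
import Pool.Agent.T9h89.PZ.IsoP
import Pool.Agent.T9h67.PZ.SetP
import Pool.Agent.T9h67.PZ.Mult

/-!
# Set Cover: a trade-off between the size of circuits and the number of their NOT gates

The question whether the universe `[n]`, `n = k * s`, can be covered by `k` members of a family of
subsets with `s` elements has `N = n.choose s` input bits. All circuits need `log₂ (N + 1)` NOT gates
at most (Markov, Fischer). The theorem says that circuits with `τ * log₂ N` NOT gates need
`2 ^ ((1 - τ - ε) * n)` gates, for all `ε > 0`, all `k ≥ 3` and all large `n`. In particular the Set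
Cover conjecture holds for circuits with `o (log N)` NOT gates, and Set Cover needs circuits of
exponential size if the number of NOT gates is at most `(1 - δ) * log₂ N`.

Proof. The universe is divided into `k * s'` and `k * m` elements. There are
`M ≥ ((k * m).choose m) ^ (1 - o (1))` partitions of the second part into `k` sets with `m` elements
which cannot be mixed: no further partition consists of members of them (as in the work of
Coppersmith and Winograd). They separate `M` blocks, each of which contains an instance of Set Cover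
on the first part: the sets of sum zero for random weights (no-instance) or a random partition. The
first blocks are filled one after the other by no-instances. Replacing one no-instance by a
yes-instance is not noticed by small monotone circuits (approximation method of
`Pool.Agent.T9h20.SC`); as long as the values read by the NOT gates do not change when a block is
filled, the circuit can be replaced by a monotone circuit, and these values change fewer than `2 ^ t`
times along a chain if there are `t` NOT gates.

The library was formalised together with helpers 8, 12, 18, 20, 29, 34, 39, 67, 80, 81, 89, 93, 95.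
-/

set_option autoImplicit false

namespace Pool.Agent.Results.MP_8fffab_lc.NegationTradeoff

open Pool.Agent.T9h36.SK
open Pool.Agent.T9h34 (Circuit)
open Pool.Agent.T9h20.SC (HasCover)
open Pool.Agent.T9h36.SN (IsLevel levelProduct prob)

/-- For all `ε > 0` and `k ≥ 3` there is `B` such that:

(1) Let `C` be a circuit (AND gates, OR gates, and further gates which compute arbitrary functions of
any number of values) which decides, for all families `ℱ` of subsets of `Fin n` with `s` elements,
`n = k * s`, whether at most `k` members of `ℱ` cover `Fin n`. Then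
`B * (size + numReads + 1) * (levelProduct C) ^ (n / log₂ (n.choose s)) ≥ 2 ^ ((1 - ε) * n)`.

(2) Let `s, m ≥ B` and `n = k * (s + m)`. There are `M ≥ ((k * m).choose m) ^ (1 - ε)`, random
chains `G ω 0 ⊆ G ω 1 ⊆ ...` of no-instances and random yes-instances `F ω t i ⊇ G ω i` (`i < M`)
with the following property. For every circuit `C` of any kind the probability that `C` accepts
`F ω t i` is at most `B` times the sum of the probability that it accepts `G ω (i + 1)`, of the
probability that its further gates read different values on `G ω i` and on `G ω (i + 1)`, and of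
`(size + numReads + 1) / 2 ^ ((1 - ε) * k * s)`; and the second of these probabilities is at most
`(levelProduct C - 1) / M`. -/
theorem result (ε : ℝ) (hε : 0 < ε) (k : ℕ) (hk : 3 ≤ k) : ∃ B : ℝ, 1 ≤ B ∧
    (∀ s : ℕ, 1 ≤ s → ∀ C : Circuit (Finset (Fin (k * s))),
      (∀ ℱ : Finset (Finset (Fin (k * s))), (∀ A ∈ ℱ, A.card = s) →
        (C.eval (indicator ℱ) = true ↔ HasCover k ℱ)) →
      ∀ lev, IsLevel C lev →
      (2 : ℝ) ^ ((1 - ε) * ((k * s : ℕ) : ℝ)) ≤ B * (C.size + C.numReads + 1) *
        (levelProduct C lev : ℝ) ^ (((k * s : ℕ) : ℝ) / Real.logb 2 ((k * s).choose s))) ∧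
    ∀ s m : ℕ, B ≤ s → B ≤ m →
    ∃ (M : ℕ) (Ω T : Type) (_ : Fintype Ω) (_ : Nonempty Ω) (_ : Fintype T) (_ : Nonempty T)
      (G : Ω → ℕ → Finset (Finset (Fin (k * (s + m)))))
      (F : Ω → T → Fin M → Finset (Finset (Fin (k * (s + m))))),
      ((k * m).choose m : ℝ) ^ (1 - ε) ≤ M ∧
      (∀ ω i, G ω i ⊆ G ω (i + 1) ∧ (∀ A ∈ G ω i, A.card = s + m) ∧ ¬ HasCover k (G ω i)) ∧
      (∀ ω t, ∀ i : Fin M, G ω i ⊆ F ω t i ∧ (∀ A ∈ F ω t i, A.card = s + m) ∧
        HasCover k (F ω t i)) ∧
      ∀ C : Circuit (Finset (Fin (k * (s + m)))),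
        prob (fun z : Ω × T × Fin M => C.eval (indicator (F z.1 z.2.1 z.2.2)) = true) ≤
          B * (prob (fun z : Ω × Fin M => C.eval (indicator (G z.1 (z.2 + 1))) = true) +
            prob (fun z : Ω × Fin M => C.reads (indicator (G z.1 z.2)) ≠
              C.reads (indicator (G z.1 (z.2 + 1)))) +
            (C.size + C.numReads + 1) / (2 : ℝ) ^ ((1 - ε) * ((k * s : ℕ) : ℝ))) ∧
        ∀ lev, IsLevel C lev →
          M * prob (fun z : Ω × Fin M => C.reads (indicator (G z.1 z.2)) ≠
              C.reads (indicator (G z.1 (z.2 + 1)))) + 1 ≤ levelProduct C lev := by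
  have hH : S_Hard := Pool.Agent.T9h8.SK.sHard Pool.Agent.T9h81.SK.sConv
  have hG : S_Sharp := Pool.Agent.T9h39.PZ.sharp_of_big
    (Pool.Agent.T9h39.PZ.fin Pool.Agent.T9h36.PZ.A.avg Pool.Agent.T9h95.PZ.fib
      (Pool.Agent.T9h36.PZ.conf Pool.Agent.T9h34.PZ.rank Pool.Agent.T9h12.PZ.struct)
      Pool.Agent.T9h89.PZ.isoP Pool.Agent.T9h67.PZ.setP Pool.Agent.T9h67.PZ.mult
      Pool.Agent.T9h95.PZ.exL)
  obtain ⟨B₁, hB₁, h1⟩ := tradeoff hH s_param Pool.Agent.T9h93.SK.path Pool.Agent.T9h18.SK.leaf
    Pool.Agent.T9h18.SK.mono Pool.Agent.T9h18.SK.yes Pool.Agent.T9h81.SK.sNo hG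
    Pool.Agent.T9h80.SK.ent1 Pool.Agent.T9h80.SK.ent2 ε hε k hk
  obtain ⟨B₂, hB₂, h2⟩ := random hH s_param Pool.Agent.T9h93.SK.path Pool.Agent.T9h18.SK.leaf
    Pool.Agent.T9h18.SK.mono Pool.Agent.T9h18.SK.yes Pool.Agent.T9h81.SK.sNo hG ε hε k hk
  refine ⟨max B₁ B₂, hB₁.trans (le_max_left _ _), ?_, ?_⟩
  · intro s hs C hC lev hl
    refine (h1 s hs C hC lev hl).trans ?_
    have h3 : (0 : ℝ) ≤ (C.size : ℝ) + C.numReads + 1 := by positivity
    have h4 : (0 : ℝ) ≤ (levelProduct C lev : ℝ) ^
        (((k * s : ℕ) : ℝ) / Real.logb 2 ((k * s).choose s)) := by positivity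
    exact mul_le_mul_of_nonneg_right (mul_le_mul_of_nonneg_right (le_max_left _ _) h3) h4
  · intro s m hs hm
    obtain ⟨M, Ω, T, i1, i2, i3, i4, G, F, a1, a2, a3, a4⟩ := h2 s m ((le_max_right _ _).trans hs)
      ((le_max_right _ _).trans hm)
    refine ⟨M, Ω, T, i1, i2, i3, i4, G, F, a1, a2, a3, fun C => ⟨?_, (a4 C).2⟩⟩
    refine (a4 C).1.trans (mul_le_mul_of_nonneg_right (le_max_right _ _) ?_)
    have h5 : 0 ≤ prob (fun z : Ω × Fin M => C.eval (indicator (G z.1 (z.2 + 1))) = true) := by
      unfold Pool.Agent.T9h36.SN.prob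
      positivity
    have h6 : 0 ≤ prob (fun z : Ω × Fin M => C.reads (indicator (G z.1 z.2)) ≠
              C.reads (indicator (G z.1 (z.2 + 1)))) := by
      unfold Pool.Agent.T9h36.SN.prob
      positivity
    positivity

end Pool.Agent.Results.MP_8fffab_lc.NegationTradeoff
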