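import Mathlib
import Pool.Agent.T9h47.SZ.Final

/-!
# Set cover: circuits must break the symmetry of the points, up to base 1.7547

An instance is a family `F` of subsets of the universe `[n] = Fin n` and a number `t`; the question
is whether at most `t` sets of `F` cover `[n]`. A circuit gets one input for each subset `S` of
`[n]`, which is `b₁` if `S` is in `F` and `b₀` otherwise. Its gates may compute arbitrary functions
of the multisets of the values of their children (with roles), with values in an arbitrary set `K`.
All circuits are allowed. Let `H` be a set of points and let `N(C)` be the number of different
functions `F ↦ view g (σ F)` on the families of at most `k n` sets with at most `k` points, for all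
gates `g` and all permutations `σ` of `[n]` which fix the points outside `H`; here `view g x` is the
value of `g` on the input `x` together with the multisets of the values of its children.

* Lower bound: let `β < 4 / 3 ^ (3/4) = 1.7547...`. There is `k` such that for all `n` and all large
  `H` there are `t` and two families `F₀`, `F₁` of at most `k n` sets with at most `k` points such
  that `[n]` is the disjoint union of at most `t` sets of `F₀` and not the union of at most `t` sets
  of `F₁`, and for every circuit with `N(C) ≤ β ^ |H|` the output on `σ F₀` and the output on `σ F₁`
  have the same distribution for a random permutation `σ` of `H`.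
* So every circuit which accepts all families (as above) with a partition into at most `t` sets
  and accepts only families with a cover by at most `t` sets has `N(C) > β ^ |H|`.
* `N(C)` is at most the number of gates if the permutations of `H` extend to automorphisms of the
  circuit, and at most `|H|!` times the number of gates always.
* Inclusion and exclusion is a circuit with `2 ^ (n + 1) + 1` gates which is symmetric under all
  permutations of `[n]` and solves set cover for all families.

Proof of the lower bound. Let `|H| = h`. Take a random `k₀`-regular multigraph (configuration model)
with `N` edges, where `N` is about `h / 2` and `k₀` is large. The edge `i` has two points `(i, 0)`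
and `(i, 1)` in `H`, each vertex `v` has some points of its own. For a vector `c`, indexed by the
vertices and with entries in the field with two elements, the family `F c` contains for each vertex
`v` and each choice of values `a i` of the edges at `v` with the sum `c v` the set of the points of
`v` and the points `(i, a i)`, or `(i, a i + 1)` at the second end of `i`. Then as many sets as there
are vertices cover the universe if and only if the system of linear equations `sum of a i = c v` is
solvable; there is no solution if the sum of all `c v` is odd. Exchanging `(i, 0)` and `(i, 1)` adds
one to `c v` at both ends of `i`. Let `N(C) ≤ β ^ h`, and let `L` be one of the functions counted by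
`N(C)`. The permutations of `H` which do not change `L` form a subgroup of index at most `β ^ h`. Two
points of `H` are in the same class if, roughly, their transposition is in this subgroup. By a
Bochert type argument the index is at least the multinomial coefficient of the class sizes, divided
by a small factor. As `β ^ h` is smaller than `h` choose `h / 4`, there is one class which contains
all points of `H` but fewer than `(1/4 - δ) h`. So exchanging the points of two edges does not change
`L` for all pairs of edges among more than `(1/2 + δ) N` of them. In a random regular graph of large
degree the number of edges between two sets of vertices is close to its expected value; by linear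
algebra and induction on the rank of the gate, the value of a gate on `σ f F c` is the value on
`σ f F 0` if `c` is in a certain coset of a subspace which belongs to the gate; for the output gate
this coset contains vectors with odd sum, and averaging over the exchanges `f` and then over `σ`
proves the claim.
-/

set_option autoImplicit false

namespace Pool.Agent.Results.MP_8fffab_lc.SymmetryBreaking

open Pool.Agent.T9h47.SC Pool.Agent.T9h47.ST Pool.Agent.T9h47.SZ

theorem result :
    -- two families which a circuit with few views cannot tell apart
    (∀ β : ℝ, 0 ≤ β → β < 4 / 3 ^ (3 / 4 : ℝ) →
      ∃ k h₀ : ℕ, ∀ (n : ℕ) (H : Finset (Fin n)), h₀ ≤ H.card →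
        ∃ t ≤ n,
          (∃ F₀ F₁ : Fam n k, Part F₀.1 t ∧ ¬ Cov F₁.1 t ∧
            ∀ (K : Type) (C : Circuit K (Finset (Fin n))) (b₀ b₁ : K),
              ((views k H C b₀ b₁).ncard : ℝ) ≤ β ^ H.card → ∀ v : K,
              Nat.card {σ : Equiv.Perm (Fin n) // (∀ u, u ∉ H → σ u = u) ∧
                C.val (inpF b₀ b₁ (im σ '' F₀.1)) C.out = v} =
              Nat.card {σ : Equiv.Perm (Fin n) // (∀ u, u ∉ H → σ u = u) ∧
                C.val (inpF b₀ b₁ (im σ '' F₁.1)) C.out = v}) ∧
          -- in particular, circuits for set cover or exact cover have many views
          ∀ (K : Type) (C : Circuit K (Finset (Fin n))) (b₀ b₁ : K) (Acc : Set K),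
            (∀ F : Fam n k, Part F.1 t → C.val (inpF b₀ b₁ F.1) C.out ∈ Acc) →
            (∀ F : Fam n k, C.val (inpF b₀ b₁ F.1) C.out ∈ Acc → Cov F.1 t) →
            β ^ H.card < ((views k H C b₀ b₁).ncard : ℝ)) ∧
    -- the number of views and the number of gates
    (∀ (K : Type) (n k : ℕ) (H : Finset (Fin n)) (C : Circuit K (Finset (Fin n))) (b₀ b₁ : K),
      (SymOn C H → (views k H C b₀ b₁).ncard ≤ @Fintype.card C.Gate C.fin) ∧
      (views k H C b₀ b₁).ncard ≤ H.card.factorial * @Fintype.card C.Gate C.fin) ∧
    -- inclusion and exclusion
    (∀ n t : ℕ, 0 < n → ∃ C : Circuit ℤ (Finset (Fin n)), SymOn C Finset.univ ∧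
      (∀ F : Set (Finset (Fin n)), 0 < C.val (inpF 0 1 F) C.out ↔ Cov F t) ∧
      @Fintype.card C.Gate C.fin = 2 ^ (n + 1) + 1) :=
  ⟨fun β hβ0 hβ => cover_main β hβ0 hβ,
    fun _ _ k H C b₀ b₁ => ⟨fun hS => views_symm k H C b₀ b₁ hS, views_le k H C b₀ b₁⟩,
    fun n t hn => ⟨incExc n t, incExc_sym t, fun F => incExc_pos hn F t, incExc_card t⟩⟩

end Pool.Agent.Results.MP_8fffab_lc.SymmetryBreaking
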