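import Pool.Agent.T9h48.SC.Trop
import Pool.Agent.T9h48.SC.Asymp
import Pool.Agent.T9h48.SC.GridN

/-!
# The Set Cover Conjecture for pure dynamic programs

A pure dynamic program, one whose recursion only uses the operations `min` and `+`, is a
`(min, +)` circuit (tropical circuit). The dynamic program over the subsets of the ground set is of
this kind. We prove the Set Cover Conjecture for this class of algorithms, in the non-uniform
setting and even for approximations within a factor `ρ > 1`: for every `β < 2` there are a number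
`s` and a factor `ρ > 1` such that `(min, +)` circuits which approximate within the factor `ρ` the
minimal number of sets needed to cover `[n]`, for all families of sets with at most `s` elements,
have more than `β ^ n * n ^ c` addition gates, for every `c` and all large `n`. Note that the size
of these families is polynomial in `n`.

Proof. Let `n = s q + r`. We look at the partitions `G_σ` of `[n]` into `q` transversals of `s` columns
of size `q` and a rest. The circuit produces for each `σ` a formal monomial whose variables are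
exactly the members of `G_σ`, with few repetitions because of the approximation. It goes through
an addition gate whose two operands contribute at most half of the monomial each, but more than
half together. This gives three parts, two for the operands and one for the rest of the circuit.
For the monomials through one gate these parts can be exchanged, so that each element of `[n]` is
always covered by the same part: the gate defines a colouring of `[n]` with three colours, and all but
few members of `G_σ` are monochromatic. Counting permutations, the number of the `σ` that go through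
one gate is at most a `((2 - ε) ^ q) ^ (s - 1)`-th part.
-/

set_option autoImplicit false

open Filter
open scoped ENNReal

namespace Pool.Agent.Results.MP_8fffab_lc.TropicalCircuits

open Pool.Agent.T9h48.SC

/-- **The Set Cover Conjecture for `(min, +)` circuits**, also for approximations. -/
theorem result (β : ℝ) (hβ0 : 0 ≤ β) (hβ : β < 2) :
    ∃ (s : ℕ) (ρ : ℝ≥0∞), 1 < ρ ∧ ∀ c : ℕ, ∀ᶠ n : ℕ in atTop,
      ∀ C : TropCircuit (Finset (Fin n)),
        (∀ F : Finset (Finset (Fin n)), (∀ A ∈ F, A.card ≤ s) → C.Approximates ρ F) →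
          β ^ n * (n : ℝ) ^ c < (C.numAdd : ℝ) := by
  set β' : ℝ := max β 1 with hβ'
  have hβ1 : 1 ≤ β' := le_max_right _ _
  have hββ : β ≤ β' := le_max_left _ _
  have hβ2 : β' < 2 := max_lt hβ (by norm_num)
  set γ : ℝ := (β' + 2) / 2 with hγ
  have hγ1 : β' < γ := by rw [hγ]; linarith
  have hγ2 : γ < 2 := by rw [hγ]; linarith
  obtain ⟨m, K, hm, hK, hmK⟩ := exists_params (hβ1.trans hγ1.le) hγ2
  obtain ⟨t, ht⟩ := exists_base hβ1 hγ1
  have hm0 : (m : ℝ≥0∞) ≠ 0 := by
    have : m ≠ 0 := by omega
    exact_mod_cast this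
  have hminv : (m : ℝ≥0∞)⁻¹ ≠ 0 := ENNReal.inv_ne_zero.2 (ENNReal.natCast_ne_top m)
  have hminv' : (m : ℝ≥0∞)⁻¹ ≠ ⊤ := ENNReal.inv_ne_top.2 hm0
  refine ⟨t + 1, 1 + (m : ℝ≥0∞)⁻¹, ?_, fun c => ?_⟩
  · exact ENNReal.lt_add_right ENNReal.one_ne_top hminv
  have hdiv : Tendsto (fun n : ℕ => n / (t + 1)) atTop atTop :=
    Nat.tendsto_div_const_atTop (Nat.succ_ne_zero t)
  filter_upwards [ht c, hdiv.eventually hmK, hdiv.eventually (eventually_ge_atTop 8)]
    with n hn hq hq8 C hC
  set q := n / (t + 1) with hqdef
  have htq : (t + 1) * q ≤ n := Nat.mul_div_le _ _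
  set T := q + 1 + (q + 1) / m with hT
  have ha2 : 2 * ((q + 1) / m) ≤ q + 1 :=
    (Nat.mul_le_mul_right _ hm).trans (Nat.mul_div_le _ _)
  have h1 := trop_bound (grid_gridN htq) (card_restN_le n t) C (1 + (m : ℝ≥0∞)⁻¹) T (by
    intro k hk
    rw [add_mul, one_mul] at hk
    have h2 : (m : ℝ≥0∞) * k ≤ m * ((q + 1 : ℕ) : ℝ≥0∞) + ((q + 1 : ℕ) : ℝ≥0∞) := by
      calc (m : ℝ≥0∞) * k ≤ m * (((q + 1 : ℕ) : ℝ≥0∞) + (m : ℝ≥0∞)⁻¹ * ((q + 1 : ℕ) : ℝ≥0∞)) := by
            gcongr
        _ = _ := by
            rw [mul_add, ← mul_assoc, ENNReal.mul_inv_cancel hm0 (ENNReal.natCast_ne_top m),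
              one_mul]
    have h3 : m * k ≤ m * (q + 1) + (q + 1) := by exact_mod_cast h2
    rw [hT]
    have h4 : k ≤ (m * (q + 1) + (q + 1)) / m := by
      rw [Nat.le_div_iff_mul_le (by omega), mul_comm]
      exact h3
    rw [Nat.mul_add_div (by omega)] at h4
    exact h4) (ENNReal.add_ne_top.2 ⟨ENNReal.one_ne_top, hminv'⟩) hC (by omega) (by omega) K hK
  have hTq : T - q = 1 + (q + 1) / m := by omega
  rw [hTq] at h1
  have h2 : (((q.choose (T / 2) * K ^ (q - (1 + (q + 1) / m))) ^ t : ℕ) : ℝ) ≤
      ((C.numAdd * ((K + 2) ^ q) ^ t : ℕ) : ℝ) := by exact_mod_cast h1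
  push_cast at h2
  have hK2 : (0 : ℝ) < (((K : ℝ) + 2) ^ q) ^ t := by positivity
  have h3 : (γ ^ q * ((K : ℝ) + 2) ^ q) ^ t ≤ (C.numAdd : ℝ) * (((K : ℝ) + 2) ^ q) ^ t :=
    (pow_le_pow_left₀ (by positivity) hq t).trans h2
  rw [mul_pow] at h3
  have h4 : (γ ^ q) ^ t ≤ (C.numAdd : ℝ) := le_of_mul_le_mul_right h3 hK2
  rw [← pow_mul] at h4
  calc β ^ n * (n : ℝ) ^ c ≤ β' ^ n * (n : ℝ) ^ c :=
        mul_le_mul_of_nonneg_right (pow_le_pow_left₀ hβ0 hββ n) (by positivity)
    _ < γ ^ (q * t) := hn
    _ ≤ C.numAdd := h4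

end Pool.Agent.Results.MP_8fffab_lc.TropicalCircuits
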